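import Mathlib
import Pool.Agent.Y859.SF.Stm

/-!
# SF-5B: counting for `t < s`
-/

set_option autoImplicit false

namespace Pool.Agent.Y329.SF

open Finset Pool.Agent.Y859.SF

theorem blk_succ {A B : ℕ} (h : A ≤ B) : blk A (B + 1) = blk A B * (B + 1) := by
  rw [blk, blk, Finset.prod_Ioc_succ_top h]

theorem blk_self (A : ℕ) : blk A A = 1 := by simp [blk]

theorem blk_pos (A B : ℕ) : 0 < blk A B := Finset.prod_pos fun j hj => by
  have := (Finset.mem_Ioc.1 hj).1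
  omega

theorem fact_blk {b m : ℕ} (h : b ≤ m) : m.factorial = b.factorial * blk b m := by
  induction m, h using Nat.le_induction with
  | base => rw [blk_self, mul_one]
  | succ m hm ih =>
    rw [blk_succ hm, Nat.factorial_succ, ih]
    ring

theorem blk_lt {t : ℕ} (ht : 1 ≤ t) {A A' : ℕ} (h : A < A') :
    blk A (A + t) < blk A' (A' + t) := by
  induction t, ht using Nat.le_induction with
  | base =>
    rw [blk_succ le_rfl, blk_succ le_rfl, blk_self, blk_self]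
    omega
  | succ t ht ih =>
    rw [← add_assoc, ← add_assoc, blk_succ (by omega), blk_succ (by omega)]
    exact Nat.mul_lt_mul'' ih (by omega)

theorem blk_ge (A t : ℕ) : A ^ t ≤ blk A (A + t) := by
  induction t with
  | zero => simp [blk]
  | succ t ih =>
    rw [← add_assoc, blk_succ (by omega), pow_succ]
    exact Nat.mul_le_mul ih (by omega)

theorem blk_le (A t M : ℕ) (h : A + t ≤ M) : blk A (A + t) ≤ M ^ t := by
  induction t with
  | zero => simp [blk]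
  | succ t ih =>
    rw [← add_assoc, blk_succ (by omega), pow_succ]
    exact Nat.mul_le_mul (ih (by omega)) (by omega)

theorem sq_of_sq_mul {X Z : ℕ} (hX : 0 < X) (h : IsSquare (X ^ 2 * Z)) : IsSquare Z := by
  obtain ⟨r, hr⟩ := h
  have h1 : X ^ 2 ∣ r ^ 2 := ⟨Z, by rw [sq r]; exact hr.symm⟩
  have h2 : X ∣ r := (Nat.pow_dvd_pow_iff two_ne_zero).1 h1
  obtain ⟨d, rfl⟩ := h2
  refine ⟨d, ?_⟩
  have h3 : X ^ 2 * Z = X ^ 2 * (d * d) := by
    rw [hr]
    ring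
  exact Nat.eq_of_mul_eq_mul_left (by positivity) h3

theorem sqf_part {f W : ℕ} (hf : Squarefree f) (h : IsSquare (f * W)) :
    ∃ β, W = f * β ^ 2 := by
  obtain ⟨c, hc⟩ := h
  have h1 : f ∣ c := by
    rw [← hf.dvd_pow_iff_dvd two_ne_zero, sq, ← hc]
    exact dvd_mul_right _ _
  obtain ⟨d, rfl⟩ := h1
  refine ⟨d, ?_⟩
  have hf0 : 0 < f := Nat.pos_of_ne_zero hf.ne_zero
  have h3 : f * W = f * (f * d ^ 2) := by
    rw [hc]
    ring
  exact Nat.eq_of_mul_eq_mul_left hf0 h3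

theorem sqf_unique {f g a b : ℕ} (hf : Squarefree f) (hg : Squarefree g)
    (h : f * a ^ 2 = g * b ^ 2) (ha : 0 < f * a ^ 2) : f = g := by
  have hb : 0 < b := by
    rcases Nat.eq_zero_or_pos b with hb | hb
    · rw [hb] at h
      simp at h
      rcases h with h | h
      · rw [h] at ha
        simp at ha
      · rw [h] at ha
        simp at ha
    · exact hb
  have h1 : IsSquare (b ^ 2 * (f * g)) := ⟨f * a, by
    calc b ^ 2 * (f * g) = f * (g * b ^ 2) := by ring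
      _ = f * (f * a ^ 2) := by rw [h]
      _ = f * a * (f * a) := by ring⟩
  obtain ⟨d, hd⟩ := sqf_part hf (sq_of_sq_mul hb h1)
  have h2 : d * d ∣ g := ⟨f, by rw [hd]; ring⟩
  have hu := hg d h2
  rw [Nat.isUnit_iff] at hu
  rw [hd, hu]
  simp

theorem card_J (n D : ℕ) (hD : 1 ≤ D) [DecidablePred fun j => ∃ x : ℕ, D < x ∧ x ^ 2 ∣ j] :
    (((Icc 1 n).filter (fun j => ∃ x : ℕ, D < x ∧ x ^ 2 ∣ j)).card : ℝ) ≤ n / D := by
  classical
  have hsub : (Icc 1 n).filter (fun j => ∃ x : ℕ, D < x ∧ x ^ 2 ∣ j) ⊆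
      (Ioc D (max D n)).biUnion (fun x => (Ioc 0 n).filter (fun j => x ^ 2 ∣ j)) := by
    intro j hj
    rw [mem_filter, mem_Icc] at hj
    obtain ⟨⟨hj1, hjn⟩, x, hx, hxj⟩ := hj
    have hxj' : x ^ 2 ≤ j := Nat.le_of_dvd (by omega) hxj
    have hxx : x ≤ x ^ 2 := Nat.le_self_pow two_ne_zero x
    rw [mem_biUnion]
    refine ⟨x, ?_, ?_⟩
    · rw [mem_Ioc]
      exact ⟨hx, le_max_of_le_right (by omega)⟩
    · rw [mem_filter, mem_Ioc]
      exact ⟨⟨by omega, hjn⟩, hxj⟩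
  have hD0 : (0 : ℝ) < D := by exact_mod_cast hD
  calc (((Icc 1 n).filter (fun j => ∃ x : ℕ, D < x ∧ x ^ 2 ∣ j)).card : ℝ)
      ≤ (((Ioc D (max D n)).biUnion
          (fun x => (Ioc 0 n).filter (fun j => x ^ 2 ∣ j))).card : ℝ) := by
        exact_mod_cast card_le_card hsub
    _ ≤ ∑ x ∈ Ioc D (max D n), (((Ioc 0 n).filter (fun j => x ^ 2 ∣ j)).card : ℝ) := by
        exact_mod_cast card_biUnion_le
    _ ≤ ∑ x ∈ Ioc D (max D n), (n : ℝ) * ((x : ℝ) ^ 2)⁻¹ := by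
        refine sum_le_sum fun x _ => ?_
        rw [Nat.Ioc_filter_dvd_card_eq_div]
        calc ((n / x ^ 2 : ℕ) : ℝ) ≤ (n : ℝ) / ((x ^ 2 : ℕ) : ℝ) := Nat.cast_div_le
          _ = (n : ℝ) * ((x : ℝ) ^ 2)⁻¹ := by
            push_cast
            rw [div_eq_mul_inv]
    _ = (n : ℝ) * ∑ x ∈ Ioc D (max D n), ((x : ℝ) ^ 2)⁻¹ := (mul_sum _ _ _).symm
    _ ≤ (n : ℝ) * ((D : ℝ)⁻¹ - ((max D n : ℕ) : ℝ)⁻¹) := by
        apply mul_le_mul_of_nonneg_left _ (Nat.cast_nonneg n)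
        exact sum_Ioc_inv_sq_le_sub (by omega) (le_max_left _ _)
    _ ≤ (n : ℝ) * (D : ℝ)⁻¹ := by
        apply mul_le_mul_of_nonneg_left _ (Nat.cast_nonneg n)
        have : 0 ≤ ((max D n : ℕ) : ℝ)⁻¹ := by positivity
        linarith
    _ = n / D := by rw [div_eq_mul_inv]

theorem card_rel {α β : Type*} (B : Finset α) (T : Finset β) (R : α → β → Prop)
    (h1 : ∀ m ∈ B, ∃ τ ∈ T, R m τ) (h2 : ∀ m m' τ, R m τ → R m' τ → m = m') :
    B.card ≤ T.card := by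
  classical
  by_cases hT : Nonempty β
  · choose! F hF using h1
    refine Finset.card_le_card_of_injOn F (fun m hm => (hF m hm).1) ?_
    intro m hm m' hm' h
    have h3 := (hF m' hm').2
    rw [← h] at h3
    exact h2 m m' (F m) (hF m hm).2 h3
  · have : B = ∅ := by
      rw [Finset.eq_empty_iff_forall_notMem]
      intro m hm
      obtain ⟨τ, -, -⟩ := h1 m hm
      exact hT ⟨τ⟩
    rw [this]
    simp

/-- `m` and the data `(y, s, t, α)` belong together. -/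
def R (m : ℕ) (τ : ℕ × ℕ × ℕ × ℕ) : Prop :=
  1 ≤ τ.2.2.1 ∧ τ.2.2.1 ≤ m ∧ ∃ f β : ℕ, Squarefree f ∧
    blk (m - τ.2.2.1) m = f * τ.2.2.2 ^ 2 ∧ blk (τ.1 - τ.2.1) τ.1 = f * β ^ 2

theorem R_lt {m m' : ℕ} {τ : ℕ × ℕ × ℕ × ℕ} (h : R m τ) (h' : R m' τ) : ¬ m < m' := by
  obtain ⟨y, s, t, α⟩ := τ
  obtain ⟨ht, htm, f, β, hf, hU, hW⟩ := h
  obtain ⟨-, htm', f', β', hf', hU', hW'⟩ := h'
  simp only at *
  intro hlt
  have hff : f = f' := by
    apply sqf_unique hf hf' (hW.symm.trans hW')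
    rw [← hW]
    exact blk_pos _ _
  subst hff
  have h1 := blk_lt ht (show m - t < m' - t by omega)
  rw [Nat.sub_add_cancel htm, Nat.sub_add_cancel htm', hU, hU'] at h1
  exact lt_irrefl _ h1

theorem R_inj (m m' : ℕ) (τ : ℕ × ℕ × ℕ × ℕ) (h : R m τ) (h' : R m' τ) : m = m' := by
  rcases lt_trichotomy m m' with h1 | h1 | h1
  · exact absurd h1 (R_lt h h')
  · exact h1
  · exact absurd h1 (R_lt h' h)

theorem key (hq : S_SQP) {K S N m b y y' A₀ : ℕ} (hS : 2 ^ K + K + 11 ≤ S)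
    (hN : 2 ^ (S ^ 4) ≤ 2 * N) (hm : m ≤ 2 * N) (hR : Rep m b y y')
    (hlt : m - b < y - y') (hs : y - y' ≤ S) (hsq : Sqb A₀ b m) :
    ∃ α, α ≤ A₀ ∧ R m (y, y - y', m - b, α) ∧
      (y ≤ N / (2 ^ K * S) ∨ ∃ j x, y' < j ∧ j ≤ y ∧ S ^ 3 < x ∧ x ^ 2 ∣ j) := by
  obtain ⟨hy'y, hyb, hbm, hsqr⟩ := hR
  obtain ⟨f, α, hf, hU, hα⟩ := hsq
  have hα0 : 0 < α := by
    rcases Nat.eq_zero_or_pos α with h | h
    · rw [h] at hU
      have := blk_pos b m
      rw [hU] at this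
      simp at this
    · exact h
  have hW : ∃ β, blk y' y = f * β ^ 2 := by
    apply sqf_part hf
    apply sq_of_sq_mul hα0
    apply sq_of_sq_mul (X := b.factorial * y'.factorial)
      (Nat.mul_pos (Nat.factorial_pos b) (Nat.factorial_pos y'))
    have h1 : (b.factorial * y'.factorial) ^ 2 * (α ^ 2 * (f * blk y' y)) =
        m.factorial * b.factorial * y.factorial * y'.factorial := by
      rw [fact_blk hbm.le, fact_blk hy'y, hU]
      ring
    rw [h1]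
    exact hsqr
  obtain ⟨β, hβ⟩ := hW
  refine ⟨α, hα, ⟨?_, ?_, f, β, hf, ?_, ?_⟩, ?_⟩
  · change 1 ≤ m - b
    omega
  · change m - b ≤ m
    omega
  · change blk (m - (m - b)) m = f * α ^ 2
    rw [Nat.sub_sub_self hbm.le]
    exact hU
  · change blk (y - (y - y')) y = f * β ^ 2
    rw [Nat.sub_sub_self hy'y]
    exact hβ
  by_cases hy : y ≤ N / (2 ^ K * S)
  · left
    exact hy
  right
  by_contra hno
  push Not at hno hy
  have h2K : 1 ≤ 2 ^ K := Nat.one_le_two_pow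
  have hS1 : 1 ≤ S := by omega
  have hS11 : 11 ≤ S := by omega
  have hKS : K + 2 ≤ S := by omega
  have hyN : N < y * (2 ^ K * S) := (Nat.div_lt_iff_lt_mul (by positivity)).1 hy
  obtain ⟨s, hs'⟩ : ∃ s, s = y - y' := ⟨_, rfl⟩
  obtain ⟨t, ht'⟩ : ∃ t, t = m - b := ⟨_, rfl⟩
  rw [← hs'] at hs hlt
  rw [← ht'] at hlt
  have hys : y' + s = y := by omega
  have hbt : b + t = m := by omega
  have hS2 : S ≤ 2 ^ S := Nat.lt_two_pow_self.le
  obtain ⟨x, hx1, hx2⟩ := hq y' s f β (by omega) hf (by rw [hys]; exact hβ)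
  have hxle : ∀ j ∈ Ioc y' (y' + s), x j ≤ S ^ 3 := by
    intro j hj
    by_contra hc
    push Not at hc
    rw [mem_Ioc, hys] at hj
    have hj' : j ∈ Ioc y' (y' + s) := by
      rw [mem_Ioc, hys]
      exact hj
    exact hno j (x j) hj.1 hj.2 hc (hx1 j hj').2
  have hprod : ∏ j ∈ Ioc y' (y' + s), x j ≤ (S ^ 3) ^ s := by
    calc ∏ j ∈ Ioc y' (y' + s), x j ≤ ∏ _j ∈ Ioc y' (y' + s), S ^ 3 :=
          Finset.prod_le_prod' hxle
      _ = (S ^ 3) ^ s := by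
          rw [prod_const, Nat.card_Ioc]
          congr 1
          omega
  have hβle : β ≤ (S ^ 3) ^ S * S ^ (S ^ 2) := by
    calc β ≤ (∏ j ∈ Ioc y' (y' + s), x j) * s ^ (s ^ 2) := hx2
      _ ≤ (S ^ 3) ^ s * S ^ (s ^ 2) := Nat.mul_le_mul hprod (Nat.pow_le_pow_left hs _)
      _ ≤ (S ^ 3) ^ S * S ^ (S ^ 2) := by
          apply Nat.mul_le_mul
          · exact Nat.pow_le_pow_right (by positivity) hs
          · exact Nat.pow_le_pow_right (by omega) (Nat.pow_le_pow_left hs 2)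
  -- `y ≤ 2 y'`
  have hNS : 2 ^ (K + 1) * S ^ 2 ≤ N := by
    have h1 : 2 ^ (K + 2) * S ^ 2 ≤ 2 ^ (S ^ 4) := by
      calc 2 ^ (K + 2) * S ^ 2 ≤ 2 ^ (K + 2) * (2 ^ S) ^ 2 :=
            Nat.mul_le_mul le_rfl (Nat.pow_le_pow_left hS2 2)
        _ = 2 ^ (K + 2 + S * 2) := by rw [← pow_mul, ← pow_add]
        _ ≤ 2 ^ (S ^ 4) := by
            apply Nat.pow_le_pow_right (by norm_num)
            have h2 : S * 11 ^ 3 ≤ S * S ^ 3 :=
              Nat.mul_le_mul le_rfl (Nat.pow_le_pow_left hS11 3)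
            have h3 : S * S ^ 3 = S ^ 4 := by ring
            rw [h3] at h2
            omega
    have h4 : 2 ^ (K + 2) * S ^ 2 = 2 * (2 ^ (K + 1) * S ^ 2) := by ring
    omega
  have hy2 : 2 * S < y := by
    have h1 : (2 * S) * (2 ^ K * S) < y * (2 ^ K * S) := by
      calc (2 * S) * (2 ^ K * S) = 2 ^ (K + 1) * S ^ 2 := by ring
        _ ≤ N := hNS
        _ < y * (2 ^ K * S) := hyN
    exact lt_of_mul_lt_mul_right h1 (Nat.zero_le _)
  have hyy : y ≤ 2 * y' := by omega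
  -- the main chain
  have hU2 : blk b m ≤ (2 * N) ^ (s - 1) := by
    rw [← hbt]
    calc blk b (b + t) ≤ (2 * N) ^ t := blk_le b t (2 * N) (by omega)
      _ ≤ (2 * N) ^ (s - 1) := Nat.pow_le_pow_right (by omega) (by omega)
  have hWU : blk y' y * α ^ 2 = blk b m * β ^ 2 := by
    rw [hβ, hU]
    ring
  have hW2 : y' ^ s ≤ blk y' y := by
    rw [← hys]
    exact blk_ge y' s
  have hchain : (2 * N) ^ s ≤ (2 * N) ^ (s - 1) * ((2 ^ (K + 2) * S) ^ s * β ^ 2) := by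
    calc (2 * N) ^ s ≤ ((2 ^ (K + 2) * S) * y') ^ s := by
          apply Nat.pow_le_pow_left
          calc 2 * N ≤ 2 * (y * (2 ^ K * S)) := by omega
            _ ≤ 2 * ((2 * y') * (2 ^ K * S)) := by
                apply Nat.mul_le_mul le_rfl
                exact Nat.mul_le_mul hyy le_rfl
            _ = (2 ^ (K + 2) * S) * y' := by ring
      _ = (2 ^ (K + 2) * S) ^ s * y' ^ s := mul_pow _ _ _
      _ ≤ (2 ^ (K + 2) * S) ^ s * (blk y' y * α ^ 2) := by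
          apply Nat.mul_le_mul le_rfl
          calc y' ^ s ≤ blk y' y := hW2
            _ = blk y' y * 1 := (mul_one _).symm
            _ ≤ blk y' y * α ^ 2 := by
                apply Nat.mul_le_mul le_rfl
                exact Nat.one_le_pow _ _ hα0
      _ = (2 ^ (K + 2) * S) ^ s * (blk b m * β ^ 2) := by rw [hWU]
      _ ≤ (2 ^ (K + 2) * S) ^ s * ((2 * N) ^ (s - 1) * β ^ 2) := by
          apply Nat.mul_le_mul le_rfl
          exact Nat.mul_le_mul hU2 le_rfl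
      _ = (2 * N) ^ (s - 1) * ((2 ^ (K + 2) * S) ^ s * β ^ 2) := by ring
  have hN0 : 0 < 2 * N := lt_of_lt_of_le (by positivity) hN
  have h2N : 2 * N ≤ (2 ^ (K + 2) * S) ^ s * β ^ 2 := by
    have h1 : (2 * N) ^ s = (2 * N) ^ (s - 1) * (2 * N) := by
      rw [← pow_succ]
      congr 1
      omega
    rw [h1] at hchain
    exact Nat.le_of_mul_le_mul_left hchain (by positivity)
  have hfin : 2 ^ (S ^ 4) ≤ 2 ^ ((K + 2 + S) * S + (S * 3 * S + S * S ^ 2) * 2) := by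
    calc 2 ^ (S ^ 4) ≤ 2 * N := hN
      _ ≤ (2 ^ (K + 2) * S) ^ s * β ^ 2 := h2N
      _ ≤ (2 ^ (K + 2) * S) ^ S * ((S ^ 3) ^ S * S ^ (S ^ 2)) ^ 2 := by
          apply Nat.mul_le_mul
          · exact Nat.pow_le_pow_right (by positivity) hs
          · exact Nat.pow_le_pow_left hβle 2
      _ ≤ (2 ^ (K + 2) * 2 ^ S) ^ S * (((2 ^ S) ^ 3) ^ S * (2 ^ S) ^ (S ^ 2)) ^ 2 := by
          apply Nat.mul_le_mul
          · apply Nat.pow_le_pow_left
            exact Nat.mul_le_mul le_rfl hS2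
          · apply Nat.pow_le_pow_left
            apply Nat.mul_le_mul
            · apply Nat.pow_le_pow_left
              exact Nat.pow_le_pow_left hS2 3
            · exact Nat.pow_le_pow_left hS2 _
      _ = 2 ^ ((K + 2 + S) * S + (S * 3 * S + S * S ^ 2) * 2) := by
          simp only [← pow_mul, ← pow_add]
  have hexp := (Nat.pow_le_pow_iff_right (by norm_num : 1 < 2)).1 hfin
  have e1 : (K + 2 + S) * S ≤ (2 * S) * S := Nat.mul_le_mul (by omega) le_rfl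
  have e2 : S ^ 2 * 11 ^ 2 ≤ S ^ 2 * S ^ 2 :=
    Nat.mul_le_mul le_rfl (Nat.pow_le_pow_left hS11 2)
  have e3 : S ^ 3 * 11 ≤ S ^ 3 * S := Nat.mul_le_mul le_rfl hS11
  have e4 : S ^ 2 * S ^ 2 = S ^ 4 := by ring
  have e5 : S ^ 3 * S = S ^ 4 := by ring
  have e6 : (2 * S) * S = 2 * S ^ 2 := by ring
  have e7 : (S * 3 * S + S * S ^ 2) * 2 = 6 * S ^ 2 + 2 * S ^ 3 := by ring
  have e8 : 1 ≤ S ^ 2 := Nat.one_le_pow _ _ hS1
  rw [e4] at e2
  rw [e5] at e3
  rw [e6] at e1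
  rw [e7] at hexp
  omega

theorem t_5B (hq : S_SQP) : S_5B := by
  classical
  intro h A₀ ε hε
  obtain ⟨K, hK⟩ : ∃ K : ℕ, 8 * ((h : ℝ) * (A₀ + 1)) / ε < (2 : ℝ) ^ K :=
    pow_unbounded_of_one_lt _ (by norm_num)
  have hK' : 8 * ((h : ℝ) * (A₀ + 1)) ≤ 2 ^ K * ε := by
    rw [div_lt_iff₀ hε] at hK
    exact hK.le
  obtain ⟨S₁, hS₁⟩ : ∃ S₁ : ℕ, S₁ = 2 ^ K + K + 11 := ⟨_, rfl⟩
  refine ⟨⌈Real.exp ((S₁ : ℝ) ^ 4)⌉₊, fun N hN => ?_⟩
  have hN1 : Real.exp ((S₁ : ℝ) ^ 4) ≤ N := (Nat.le_ceil _).trans (by exact_mod_cast hN)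
  have hNpos : (0 : ℝ) < N := lt_of_lt_of_le (Real.exp_pos _) hN1
  obtain ⟨L, hL⟩ : ∃ L : ℝ, L = Real.log (2 * N) := ⟨_, rfl⟩
  have hL1 : (S₁ : ℝ) ^ 4 ≤ L := by
    rw [hL, Real.le_log_iff_exp_le (by positivity)]
    linarith
  have hL0 : 0 ≤ L := le_trans (by positivity) hL1
  have hL4 : (L ^ (((4 : ℕ) : ℝ)⁻¹)) ^ 4 = L := Real.rpow_inv_natCast_pow hL0 (by norm_num)
  have hLr0 : 0 ≤ L ^ (((4 : ℕ) : ℝ)⁻¹) := Real.rpow_nonneg hL0 _
  obtain ⟨S, hS⟩ : ∃ S : ℕ, S = ⌊L ^ (((4 : ℕ) : ℝ)⁻¹)⌋₊ := ⟨_, rfl⟩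
  have hSle : ∀ s : ℕ, (s : ℝ) ^ 4 ≤ L → s ≤ S := by
    intro s hs
    rw [hS]
    apply Nat.le_floor
    rw [← hL4] at hs
    exact (pow_le_pow_iff_left₀ (Nat.cast_nonneg s) hLr0 (by norm_num)).1 hs
  have hSS : S₁ ≤ S := hSle S₁ hL1
  have hS4 : (S : ℝ) ^ 4 ≤ L := by
    rw [← hL4]
    apply pow_le_pow_left₀ (Nat.cast_nonneg S)
    rw [hS]
    exact Nat.floor_le hLr0
  have hN2 : 2 ^ (S ^ 4) ≤ 2 * N := by
    have h1 : (2 : ℝ) ^ (S ^ 4) ≤ 2 * N := by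
      have h2 : (2 : ℝ) ≤ Real.exp 1 := by
        have := Real.add_one_le_exp (1 : ℝ)
        linarith
      calc (2 : ℝ) ^ (S ^ 4) ≤ (Real.exp 1) ^ (S ^ 4) :=
            pow_le_pow_left₀ (by norm_num) h2 _
        _ = Real.exp ((S : ℝ) ^ 4) := by
            rw [← Real.exp_nat_mul]
            push_cast
            rw [mul_one]
        _ ≤ Real.exp L := Real.exp_le_exp.2 hS4
        _ = 2 * N := by
            rw [hL]
            exact Real.exp_log (by positivity)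
    exact_mod_cast h1
  rw [hS₁] at hSS
  have h2K : 1 ≤ 2 ^ K := Nat.one_le_two_pow
  have hS11 : 11 ≤ S := by omega
  have hKS' : K + 2 ≤ S := by omega
  have hSpos : (0 : ℝ) < S := by
    have : 0 < S := by omega
    exact_mod_cast this
  have hKS : (2 : ℝ) ^ K ≤ S := by
    have h1 : 2 ^ K ≤ S := by omega
    exact_mod_cast h1
  -- the exceptional set
  obtain ⟨P, hP⟩ : ∃ P : ℕ → Prop, P = fun m => ∃ b y y' : ℕ, Rep m b y y' ∧ m - b < h ∧
    m - b < y - y' ∧ ((y - y' : ℕ) : ℝ) ^ 4 ≤ Real.log m ∧ Sqb A₀ b m := ⟨_, rfl⟩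
  rw [← hP]
  let J : Finset ℕ := (Icc 1 (2 * N)).filter (fun j => ∃ x : ℕ, S ^ 3 < x ∧ x ^ 2 ∣ j)
  let T₁ : Finset (ℕ × ℕ × ℕ × ℕ) :=
    range (N / (2 ^ K * S) + 1) ×ˢ range (S + 1) ×ˢ range h ×ˢ range (A₀ + 1)
  let T₂ : Finset (ℕ × ℕ × ℕ × ℕ × ℕ) :=
    J ×ˢ range S ×ˢ range (S + 1) ×ˢ range h ×ˢ range (A₀ + 1)
  let R₂ : ℕ → (ℕ × ℕ × ℕ × ℕ × ℕ) → Prop := fun m τ => R m (τ.1 + τ.2.1, τ.2.2)
  let B : Finset ℕ := (Ioc N (2 * N)).filter P
  let B₁ : Finset ℕ := B.filter (fun m => ∃ τ ∈ T₁, R m τ)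
  let B₂ : Finset ℕ := B.filter (fun m => ∃ τ ∈ T₂, R₂ m τ)
  have hB : B ⊆ B₁ ∪ B₂ := by
    intro m hm
    have hm' := hm
    rw [mem_filter, mem_Ioc, hP] at hm'
    obtain ⟨⟨hNm, hm2N⟩, b, y, y', hRep, hh, hlt, hlog, hsqb⟩ := hm'
    have hs : y - y' ≤ S := by
      apply hSle
      refine hlog.trans ?_
      rw [hL]
      apply Real.log_le_log
      · have : 0 < m := by omega
        exact_mod_cast this
      · exact_mod_cast hm2N
    obtain ⟨α, hα, hRm, hcase⟩ := key hq hSS hN2 hm2N hRep hlt hs hsqb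
    rw [mem_union]
    rcases hcase with hy | ⟨j, x, hj1, hj2, hx, hxj⟩
    · left
      rw [mem_filter]
      refine ⟨hm, (y, y - y', m - b, α), ?_, hRm⟩
      simp only [T₁, mem_product, mem_range]
      refine ⟨by omega, by omega, hh, by omega⟩
    · right
      rw [mem_filter]
      refine ⟨hm, (j, y - j, y - y', m - b, α), ?_, ?_⟩
      · simp only [T₂, J, mem_product, mem_range, mem_filter, mem_Icc]
        obtain ⟨h1, h2, h3, -⟩ := hRep
        refine ⟨⟨⟨by omega, by omega⟩, x, hx, hxj⟩, by omega, by omega, hh, by omega⟩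
      · change R m (j + (y - j), y - y', m - b, α)
        rw [Nat.add_sub_cancel' hj2]
        exact hRm
  have hc1 : B₁.card ≤ T₁.card := by
    apply card_rel B₁ T₁ R
    · intro m hm
      exact (mem_filter.1 hm).2
    · exact R_inj
  have hc2 : B₂.card ≤ T₂.card := by
    apply card_rel B₂ T₂ R₂
    · intro m hm
      exact (mem_filter.1 hm).2
    · intro m m' τ h1 h2
      exact R_inj m m' _ h1 h2
  have hT1 : (T₁.card : ℝ) ≤ ε / 2 * N := by
    have h1 : (T₁.card : ℝ) =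
        (((N / (2 ^ K * S) : ℕ) : ℝ) + 1) * ((S + 1) * ((h : ℝ) * (A₀ + 1))) := by
      simp only [T₁, card_product, card_range]
      push_cast
      ring
    have hNS : 2 ^ K * S ≤ N := by
      have h2 : 2 ^ (K + 1) * S ≤ 2 ^ (S ^ 4) := by
        calc 2 ^ (K + 1) * S ≤ 2 ^ (K + 1) * 2 ^ S :=
              Nat.mul_le_mul le_rfl Nat.lt_two_pow_self.le
          _ = 2 ^ (K + 1 + S) := by rw [← pow_add]
          _ ≤ 2 ^ (S ^ 4) := by
              apply Nat.pow_le_pow_right (by norm_num)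
              have h2 : S * 11 ^ 3 ≤ S * S ^ 3 :=
                Nat.mul_le_mul le_rfl (Nat.pow_le_pow_left hS11 3)
              have h3 : S * S ^ 3 = S ^ 4 := by ring
              rw [h3] at h2
              omega
      have h4 : 2 ^ (K + 1) * S = 2 * (2 ^ K * S) := by ring
      omega
    have hden : (0 : ℝ) < 2 ^ K * S := by positivity
    have h2 : (((N / (2 ^ K * S) : ℕ) : ℝ)) ≤ N / (2 ^ K * S) := by
      have := @Nat.cast_div_le ℝ _ _ _ N (2 ^ K * S)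
      push_cast at this
      exact this
    have h3 : (1 : ℝ) ≤ N / (2 ^ K * S) := by
      rw [le_div_iff₀ hden, one_mul]
      exact_mod_cast hNS
    have h4 : (S : ℝ) + 1 ≤ 2 * S := by
      have : (11 : ℝ) ≤ S := by exact_mod_cast hS11
      linarith
    rw [h1]
    calc (((N / (2 ^ K * S) : ℕ) : ℝ) + 1) * ((S + 1) * ((h : ℝ) * (A₀ + 1)))
        ≤ (2 * (N / (2 ^ K * S))) * ((2 * S) * ((h : ℝ) * (A₀ + 1))) := by
          gcongr
          linarith
      _ = (8 * ((h : ℝ) * (A₀ + 1))) * (N / (2 * 2 ^ K)) := by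
          field_simp
          ring
      _ ≤ (2 ^ K * ε) * (N / (2 * 2 ^ K)) := by gcongr
      _ = ε / 2 * N := by
          field_simp
  have hT2 : (T₂.card : ℝ) ≤ ε / 2 * N := by
    have h1 : (T₂.card : ℝ) = (J.card : ℝ) * (S * ((S + 1) * ((h : ℝ) * (A₀ + 1)))) := by
      simp only [T₂, card_product, card_range]
      push_cast
      ring
    have hJ : (J.card : ℝ) ≤ (2 * N) / (S : ℝ) ^ 3 := by
      have h2 := card_J (2 * N) (S ^ 3) (Nat.one_le_pow _ _ (by omega))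
      push_cast at h2
      exact h2
    have h4 : (S : ℝ) + 1 ≤ 2 * S := by
      have : (11 : ℝ) ≤ S := by exact_mod_cast hS11
      linarith
    rw [h1]
    calc (J.card : ℝ) * (S * ((S + 1) * ((h : ℝ) * (A₀ + 1))))
        ≤ ((2 * N) / (S : ℝ) ^ 3) * (S * ((2 * S) * ((h : ℝ) * (A₀ + 1)))) := by gcongr
      _ = (8 * ((h : ℝ) * (A₀ + 1))) * (N / (2 * S)) := by
          field_simp
          ring
      _ ≤ (2 ^ K * ε) * (N / (2 * S)) := by gcongr
      _ ≤ (S * ε) * (N / (2 * S)) := by gcongr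
      _ = ε / 2 * N := by
          field_simp
  refine ⟨B, ?_, ?_⟩
  · have h1 : B.card ≤ B₁.card + B₂.card := (card_le_card hB).trans (card_union_le _ _)
    have h2 : B.card ≤ T₁.card + T₂.card := h1.trans (Nat.add_le_add hc1 hc2)
    have h3 : (B.card : ℝ) ≤ T₁.card + T₂.card := by exact_mod_cast h2
    linarith
  · intro m h1 h2 h3
    rw [mem_filter, mem_Ioc]
    exact ⟨⟨h1, h2⟩, h3⟩

end Pool.Agent.Y329.SF
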